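import Mathlib
import Pool.Agent.helper37.NE.SpecC

/-!
# Row ne:YCB (MP_baa4d7_al): the conditions `Cov` and `SB` agree for the characters of the local subgroups
-/

set_option autoImplicit false

namespace Pool.Agent.NE

open Pool.Agent.helper58.DC Pool.Agent.DI Pool.Agent.GR Pool.Agent.OB Pool.Agent.DR Pool.Agent.FI Pool.Agent.FI3 Pool.Agent.FI4 Pool.Agent.FI4I Pool.Agent.LE Pool.Agent.L5 Pool.Agent.NAB Pool.Agent.ND

/-- `SB` implies the congruence of the values `omega` on a normal subgroup. -/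
theorem YCB_om {G : Type} [Group G] [Finite G] (hCLS : Pool.Agent.FI.CLS_stmt)
    (M : Ideal (integralClosure ℤ ℂ)) (G₀ : Subgroup G) (hn : G₀.Normal) (φ b : G → ℂ)
    (h : SB M G₀ φ b) : ∀ g ∈ G₀, Mcong M (omega φ g) (omega b g) := by
  intro g hg
  obtain ⟨c1, c2, c3, c4, c5, c6, c7, c8, c9⟩ := hCLS G ⊤ g
  rw [c8 φ, c8 b]
  refine h _ ⟨fun l _ x => c1 l (Subgroup.mem_top _) x, fun x hx => ?_⟩ c3
  rcases c5 x with h0 | h1
  · exact h0
  · obtain ⟨l, _, e⟩ := (c4 x).1 h1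
    exact absurd (e ▸ hn.conj_mem g hg l) hx

theorem YCB_mem_nrm {G : Type} [Group G] (C : Finset (Subgroup G)) (x : G) :
    x ∈ nrm C ↔ ∀ Q ∈ C, x ∈ nz Q := by
  unfold nrm
  simp only [Subgroup.mem_iInf]

/-- A chain has a largest term. -/
theorem YCB_top {G : Type} [Group G] [Finite G] (p : ℕ) (L : Subgroup G)
    (C : Finset (Subgroup G)) (hC : NCh p L ⊥ C) : ∃ P ∈ C, ∀ Q ∈ C, Q ≤ P := by
  obtain ⟨P, hP, hmax⟩ := C.exists_max_image (fun Q : Subgroup G => Nat.card Q) ⟨⊥, hC.ch.mem⟩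
  refine ⟨P, hP, fun Q hQ => ?_⟩
  by_cases hPQ : P = Q
  · rw [hPQ]
  · rcases hC.ch.chain hP hQ hPQ with h | h
    · exact le_of_eq (Subgroup.eq_of_le_of_card_ge h (hmax Q hQ)).symm
    · exact h

/-- There is an induced block. -/
theorem YCB_ex (hNFV : NFV_stmt) (hCFA : CFA_stmt) (hEXB : Pool.Agent.FI.EXB_stmt)
    (hTRN : Pool.Agent.FI.TRN_stmt) (p : ℕ) (M : Ideal (integralClosure ℤ ℂ)) (hs : Setup p M)
    (G : Type) [Group G] [Finite G] (G₀ : Subgroup G) (C : Finset (Subgroup G)) (hC : NCh p G₀ ⊥ C)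
    (φ : G → ℂ) (hφ : φ ∈ IrrOn (nrm C ⊓ G₀)) : ∃ b ∈ IrrOn G₀, SB M G₀ φ b := by
  obtain ⟨P, hP, hmax⟩ := YCB_top p G₀ C hC
  have hPn : P ≤ nrm C := fun x hx => (YCB_mem_nrm C x).2 fun Q hQ =>
    hC.nm Q hQ P hP (hmax Q hQ) hx
  have hPG : P ≤ G₀ := hC.ch.le P hP
  set N : Subgroup G := nrm C ⊓ G₀ with hN
  have hPN : P ≤ N := le_inf hPn hPG
  have hNn : N ≤ nz P := fun x hx => (YCB_mem_nrm C x).1 hx.1 P hP
  have hcz : G₀ ⊓ cz P ≤ N := by
    intro x hx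
    refine ⟨(YCB_mem_nrm C x).2 fun Q hQ => ?_, hx.1⟩
    have hc : ∀ y ∈ Q, x * y * x⁻¹ = y := by
      intro y hy
      have h1 := Subgroup.mem_centralizer_iff.1 hx.2 y (hmax Q hQ hy)
      rw [← h1]
      group
    have hc' : ∀ y ∈ Q, x⁻¹ * y * x = y := by
      intro y hy
      have h1 := Subgroup.mem_centralizer_iff.1 hx.2 y (hmax Q hQ hy)
      rw [mul_assoc, h1]
      group
    rw [Subgroup.mem_normalizer_iff]
    intro y
    constructor
    · intro hy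
      rw [hc y hy]
      exact hy
    · intro hy
      have h2 := hc' _ hy
      have h3 : x⁻¹ * (x * y * x⁻¹) * x = y := by group
      rw [h3] at h2
      rw [h2]
      exact hy
  have hKL : N ⊓ cz P = G₀ ⊓ cz P :=
    le_antisymm (le_inf (inf_le_left.trans inf_le_right) inf_le_right)
      (le_inf hcz inf_le_right)
  have hK1 : N ⊓ cz P ≤ N := inf_le_left
  have hK2 : N ≤ nz (N ⊓ cz P) := by
    intro g hg
    have key : ∀ a ∈ N, ∀ y : G, y ∈ N ⊓ cz P → a * y * a⁻¹ ∈ N ⊓ cz P := by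
      intro a ha y hy
      exact ⟨N.mul_mem (N.mul_mem ha hy.1) (N.inv_mem ha), cz_conj (hNn ha) hy.2⟩
    rw [Subgroup.mem_normalizer_iff]
    intro y
    constructor
    · intro hy
      exact key g hg y hy
    · intro hy
      have := key g⁻¹ (N.inv_mem hg) _ hy
      have e1 : g⁻¹ * (g * y * g⁻¹) * g⁻¹⁻¹ = y := by group
      rwa [e1] at this
  obtain ⟨ψ₀, hψ₀, n, hn, hov⟩ := (hCFA G (N ⊓ cz P) N hK1 hK2).1 φ hφ
  have hS : SB M N φ ψ₀ := hNFV p M hs G P N (hC.ch.pg P hP) hPN hNn φ hφ ψ₀ hψ₀ n hn hov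
  have hψ₁ : ψ₀ ∈ IrrOn (G₀ ⊓ cz P) := by rw [← hKL]; exact hψ₀
  obtain ⟨b, hb, hSb⟩ := hEXB p M hs G G₀ P (hC.ch.pg P hP) hPG ψ₀ hψ₁
  refine ⟨b, hb, ?_⟩
  have hz : ∀ y, y ∉ N → ψ₀ y = 0 := fun y hy => hψ₀.1 y fun h => hy h.1
  exact (hTRN G M N G₀ inf_le_right φ ψ₀ b hφ.1 hz hS).1.trans hSb

theorem YCB_cong {M : Ideal (integralClosure ℤ ℂ)} {a b c : ℂ} (h : Mcong M a b)
    (h' : Mcong M a c) : Mcong M b c := by
  obtain ⟨x, hx, e⟩ := h
  obtain ⟨y, hy, e'⟩ := h'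
  refine ⟨y - x, M.sub_mem hy hx, ?_⟩
  push_cast
  rw [← e, ← e']
  ring

theorem YCB (hNFV : NFV_stmt) (hCFA : CFA_stmt) (hEXB : Pool.Agent.FI.EXB_stmt)
    (hTRN : Pool.Agent.FI.TRN_stmt) (hNOB : NOB_stmt) (hDCM : Pool.Agent.FI.DCM_stmt)
    (hCLS : Pool.Agent.FI.CLS_stmt) : YCB_stmt := by
  intro p M hs G _ _ G₀ hn χ₀ hχ₀ hst C hC φ hφ
  constructor
  · intro hcov
    obtain ⟨b, hb, hSb⟩ := YCB_ex hNFV hCFA hEXB hTRN p M hs G G₀ C hC φ hφ
    have h1 : ∀ g ∈ G₀, Mcong M (omega b g) (omega χ₀ g) := fun g hg =>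
      YCB_cong (YCB_om hCLS M G₀ hn φ b hSb g hg) (hcov g hg)
    have h2 : SB M ⊤ b χ₀ := by
      refine ((hDCM G ⊤ M p hs).2 b χ₀).2 fun y _ => ?_
      by_cases hy : y ∈ G₀
      · obtain ⟨c1, c2, c3, c4, c5, c6, c7, c8, c9⟩ := hCLS G ⊤ y
        rw [← c8 b, ← c8 χ₀]
        exact h1 y hy
      · have h3 : ∀ ψ ∈ IrrOn G₀, cc ψ (cls ⊤ y) = 0 := by
          intro ψ hψ
          obtain ⟨c1, c2, c3, c4, c5, c6, c7, c8, c9⟩ := hCLS G ⊤ y
          have h4 : ∀ x, cls ⊤ y x * ψ x = 0 := by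
            intro x
            by_cases hx : x ∈ G₀
            · rcases c5 x with h0 | h1
              · rw [h0, zero_mul]
              · obtain ⟨l, _, e⟩ := (c4 x).1 h1
                exfalso
                refine hy ?_
                have h5 : y = l⁻¹ * x * l⁻¹⁻¹ := by rw [← e]; group
                rw [h5]
                exact hn.conj_mem x hx l⁻¹
            · rw [hψ.1 x hx, mul_zero]
          unfold cc
          rw [finsum_congr h4, finsum_zero, zero_div]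
        rw [h3 b hb, h3 χ₀ hχ₀]
        exact ⟨0, M.zero_mem, by simp⟩
    obtain ⟨h, _, hh⟩ := hNOB p M hs G G₀ ⊤ le_top
      (le_of_eq (Subgroup.normalizer_eq_top_iff.2 hn).symm) b hb χ₀ hχ₀ h2
    exact hSb.trans (hh.symm.trans (hst h))
  · intro h g hg
    exact YCB_om hCLS M G₀ hn φ χ₀ h g hg

end Pool.Agent.NE
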